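import Pool.Agent.Run7.h1.GB.Pot

/-!
# Commutator subgroups of groups acting on trees with commensurable central stabilizers

Owner helper1.
-/

set_option autoImplicit false

namespace Pool.Agent.Run7.h1.GB

open SimpleGraph Pool.Agent.N24.TR

/-- a homomorphism to `ℚ` from a torsion-free abelian group which does not kill a given element -/
theorem exists_char {A : Type} [CommGroup A] (x : A) (hx : ∀ n : ℕ, 0 < n → x ^ n ≠ 1) :
    ∃ χ : A →* Multiplicative ℚ, χ x ≠ 1 := by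
  have hinj : Module.Injective ℤ ℚ := Module.Baer.injective (Module.Baer.of_divisible ℚ)
  let f : ℤ →ₗ[ℤ] Additive A := LinearMap.toSpanSingleton ℤ (Additive A) (Additive.ofMul x)
  have hf : Function.Injective f := by
    rw [← LinearMap.ker_eq_bot, LinearMap.ker_eq_bot']
    intro k hk
    have h1 : x ^ k = 1 := hk
    by_contra hne
    rcases Int.natAbs_eq k with h2 | h2
    · rw [h2, zpow_natCast] at h1
      exact hx _ (Int.natAbs_pos.2 hne) h1
    · rw [h2, zpow_neg, zpow_natCast, inv_eq_one] at h1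
      exact hx _ (Int.natAbs_pos.2 hne) h1
  obtain ⟨h, hh⟩ := hinj.out f hf (LinearMap.toSpanSingleton ℤ ℚ 1)
  refine ⟨AddMonoidHom.toMultiplicativeRight h.toAddMonoidHom, fun h1 => ?_⟩
  have h2 : h (Additive.ofMul x) = 0 := h1
  have h3 := hh 1
  have h4 : f 1 = Additive.ofMul x := by
    show (1 : ℤ) • Additive.ofMul x = _
    rw [one_smul]
  rw [h4, h2] at h3
  have h5 : (LinearMap.toSpanSingleton ℤ ℚ 1) (1 : ℤ) = (1 : ℚ) := by
    show (1 : ℤ) • (1 : ℚ) = 1
    rw [one_smul]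
  rw [h5] at h3
  exact one_ne_zero h3.symm

/-- the vertex stabilizers meet the commutator subgroup trivially -/
theorem stab_commutator {K V : Type} [Group K] [MulAction K V] (T : SimpleGraph V) (hT : T.IsTree)
    (hact : ∀ (g : K) (u v : V), T.Adj u v → T.Adj (g • u) (g • v)) (o : V)
    (h1 : ∀ (v : V) (a b : K), a • v = v → b • v = v → a * b = b * a)
    (h2 : ∀ (v : V) (a : K), a • v = v → ∃ m : ℕ, 0 < m ∧ a ^ m • o = o)
    (h3 : ∀ g a : K, a • o = o → ∃ n : ℕ, 0 < n ∧ g * a ^ n = a ^ n * g)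
    (h4 : ∀ (v : V) (a : K), a • v = v → a ≠ 1 → ∀ m : ℕ, 0 < m → a ^ m ≠ 1)
    (v : V) (d : K) (hd : d • v = v) (hdc : d ∈ commutator K) : d = 1 := by
  classical
  by_contra hne
  obtain ⟨A, hA⟩ : ∃ A : Subgroup K, A = MulAction.stabilizer K o := ⟨_, rfl⟩
  have hAo : ∀ a : K, a ∈ A ↔ a • o = o := by
    intro a
    rw [hA]
    exact MulAction.mem_stabilizer_iff
  let inst : CommGroup A :=
    { (inferInstance : Group A) with
      mul_comm := fun a b => Subtype.ext (h1 o a b ((hAo a).1 a.2) ((hAo b).1 b.2)) }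
  obtain ⟨m, hm, hmo⟩ := h2 v d hd
  have hdm : d ^ m ∈ A := (hAo _).2 hmo
  obtain ⟨χ, hχ⟩ := exists_char (⟨d ^ m, hdm⟩ : A) (by
    intro n hn h5
    have h6 : (d ^ m) ^ n = 1 := congrArg Subtype.val h5
    rw [← pow_mul] at h6
    exact h4 v d hd hne (m * n) (Nat.mul_pos hm hn) h6)
  -- the value of the character, extended to the elements with a power in `A`
  let P : K → ℕ → Prop := fun a n => 0 < n ∧ a ^ n ∈ A
  let φ : K → ℚ := fun a => if h : ∃ n, P a n then
    Multiplicative.toAdd (χ ⟨a ^ (Classical.choose h), (Classical.choose_spec h).2⟩) /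
      (Classical.choose h : ℕ) else 0
  have hpow : ∀ (a : K) (n k : ℕ) (h : a ^ n ∈ A) (h' : a ^ (n * k) ∈ A),
      Multiplicative.toAdd (χ ⟨a ^ (n * k), h'⟩) = k * Multiplicative.toAdd (χ ⟨a ^ n, h⟩) := by
    intro a n k h h'
    have h5 : (⟨a ^ (n * k), h'⟩ : A) = ⟨a ^ n, h⟩ ^ k := Subtype.ext (by
      show a ^ (n * k) = (a ^ n) ^ k
      rw [pow_mul])
    rw [h5]
    have h6 := map_pow χ (⟨a ^ n, h⟩ : A) k
    have h7 : χ ((⟨a ^ n, h⟩ : A) ^ k) = (χ ⟨a ^ n, h⟩) ^ k := h6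
    rw [h7, toAdd_pow, nsmul_eq_mul]
  have hφ : ∀ (a : K) (n : ℕ) (hn : 0 < n) (h : a ^ n ∈ A),
      φ a = Multiplicative.toAdd (χ ⟨a ^ n, h⟩) / n := by
    intro a n hn h
    have hex : ∃ n, P a n := ⟨n, hn, h⟩
    obtain ⟨c, hc⟩ : ∃ c, c = Classical.choose hex := ⟨_, rfl⟩
    have hcs : P a c := hc ▸ Classical.choose_spec hex
    have h5 : φ a = Multiplicative.toAdd (χ ⟨a ^ c, hcs.2⟩) / c := by
      show (if h : ∃ n, P a n then _ else 0) = _
      rw [dif_pos hex]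
      subst hc
      rfl
    have h6 : a ^ (c * n) ∈ A := by
      rw [pow_mul]
      exact A.pow_mem hcs.2 n
    have h6' : a ^ (n * c) ∈ A := by
      rw [mul_comm]
      exact h6
    have h7 := hpow a c n hcs.2 h6
    have h8 := hpow a n c h h6'
    have h9 : (⟨a ^ (c * n), h6⟩ : A) = ⟨a ^ (n * c), h6'⟩ := Subtype.ext (by
      show a ^ (c * n) = a ^ (n * c)
      rw [mul_comm])
    rw [h9, h8] at h7
    have hc0 : (c : ℚ) ≠ 0 := by exact_mod_cast hcs.1.ne'
    have hn0 : (n : ℚ) ≠ 0 := by exact_mod_cast hn.ne'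
    rw [h5, div_eq_div_iff hc0 hn0]
    linarith
  have hpw : ∀ (v : V) (a : K), a • v = v → ∃ m : ℕ, 0 < m ∧ a ^ m ∈ A := by
    intro v a ha
    obtain ⟨m, hm, h⟩ := h2 v a ha
    exact ⟨m, hm, (hAo _).2 h⟩
  obtain ⟨Φ, hΦ⟩ := extend_hom T hT hact φ (fun v a b ha hb => by
    obtain ⟨m, hm, ham⟩ := hpw v a ha
    obtain ⟨n, hn, hbn⟩ := hpw v b hb
    have ham' : a ^ (m * n) ∈ A := by
      rw [pow_mul]
      exact A.pow_mem ham n
    have hbn' : b ^ (m * n) ∈ A := by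
      rw [mul_comm, pow_mul]
      exact A.pow_mem hbn m
    have hab : (a * b) ^ (m * n) = a ^ (m * n) * b ^ (m * n) :=
      Commute.mul_pow (show Commute a b from h1 v a b ha hb) _
    have habm : (a * b) ^ (m * n) ∈ A := by
      rw [hab]
      exact A.mul_mem ham' hbn'
    have hmn : 0 < m * n := Nat.mul_pos hm hn
    rw [hφ a _ hmn ham', hφ b _ hmn hbn', hφ (a * b) _ hmn habm]
    have h5 : (⟨(a * b) ^ (m * n), habm⟩ : A) = ⟨a ^ (m * n), ham'⟩ * ⟨b ^ (m * n), hbn'⟩ :=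
      Subtype.ext hab
    rw [h5]
    have h6 : χ ((⟨a ^ (m * n), ham'⟩ : A) * ⟨b ^ (m * n), hbn'⟩) =
      χ ⟨a ^ (m * n), ham'⟩ * χ ⟨b ^ (m * n), hbn'⟩ := map_mul χ _ _
    rw [h6, toAdd_mul]
    ring) (fun v g a ha => by
    obtain ⟨m, hm, ham⟩ := hpw v a ha
    obtain ⟨n, hn, hgn⟩ := h3 g (a ^ m) ((hAo _).1 ham)
    have ham' : a ^ (m * n) ∈ A := by
      rw [pow_mul]
      exact A.pow_mem ham n
    have h5 : (g * a * g⁻¹) ^ (m * n) = a ^ (m * n) := by
      rw [conj_pow, pow_mul, mul_inv_eq_iff_eq_mul]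
      exact hgn
    have h6 : (g * a * g⁻¹) ^ (m * n) ∈ A := by
      rw [h5]
      exact ham'
    have hmn : 0 < m * n := Nat.mul_pos hm hn
    rw [hφ a _ hmn ham', hφ _ _ hmn h6]
    have h7 : (⟨(g * a * g⁻¹) ^ (m * n), h6⟩ : A) = ⟨a ^ (m * n), ham'⟩ := Subtype.ext h5
    rw [h7])
  have h5 := hΦ v d hd
  rw [hφ d m hm hdm] at h5
  have h6 : Φ d = 1 := by
    have h7 : commutator K ≤ Φ.ker := by
      rw [commutator_def, Subgroup.commutator_le]
      intro x _ y _
      rw [MonoidHom.mem_ker, commutatorElement_def, map_mul, map_mul, map_mul, map_inv, map_inv,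
        mul_comm (Φ x), mul_assoc (Φ y), mul_inv_cancel, mul_one, mul_inv_cancel]
    exact h7 hdc
  rw [h6] at h5
  have h7 : Multiplicative.toAdd (χ ⟨d ^ m, hdm⟩) / (m : ℚ) = 0 := h5.symm
  have hm0 : (m : ℚ) ≠ 0 := by exact_mod_cast hm.ne'
  have h8 : Multiplicative.toAdd (χ ⟨d ^ m, hdm⟩) = 0 := by
    rcases div_eq_zero_iff.1 h7 with h | h
    · exact h
    · exact absurd h hm0
  exact hχ h8

/-- **the commutator subgroup is free** -/
theorem commutator_free {K V : Type} [Group K] [MulAction K V] (T : SimpleGraph V) (hT : T.IsTree)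
    (hact : ∀ (g : K) (u v : V), T.Adj u v → T.Adj (g • u) (g • v)) (o : V)
    (h1 : ∀ (v : V) (a b : K), a • v = v → b • v = v → a * b = b * a)
    (h2 : ∀ (v : V) (a : K), a • v = v → ∃ m : ℕ, 0 < m ∧ a ^ m • o = o)
    (h3 : ∀ g a : K, a • o = o → ∃ n : ℕ, 0 < n ∧ g * a ^ n = a ^ n * g)
    (h4 : ∀ (v : V) (a : K), a • v = v → a ≠ 1 → ∀ m : ℕ, 0 < m → a ^ m ≠ 1) :
    IsFreeGroup (commutator K) := by
  obtain ⟨τ, hτ⟩ := exists_parity T hT hact
  have hτc : commutator K ≤ τ.ker := by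
    rw [commutator_def, Subgroup.commutator_le]
    intro x _ y _
    rw [MonoidHom.mem_ker, commutatorElement_def, map_mul, map_mul, map_mul, map_inv, map_inv,
      mul_comm (τ x), mul_assoc (τ y), mul_inv_cancel, mul_one, mul_inv_cancel]
  refine free_of_action T hT (H := commutator K) (fun g u v h => hact g u v h) (fun g v hg => ?_)
    (fun g v h => hτ g v h (hτc g.2))
  exact Subtype.ext (stab_commutator T hT hact o h1 h2 h3 h4 v g hg g.2)

end Pool.Agent.Run7.h1.GB
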