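import Pool.Agent.Run7.h1.GB.Com
import Pool.Agent.N77.CP.Fin
import Pool.Agent.R684.FP.Free

/-!
# Kernels that act on trees with commensurable stabilizers

Owner helper1.

`N` is a normal subgroup of `G`, and only `N` acts on a tree; the action need not be compatible with
the conjugations by elements of `G`.
-/

set_option autoImplicit false

namespace Pool.Agent.Run7.h1.GB

open Pool.Agent.Y110.FJ (ClosedE)
open Pool.Agent.R684.FP (FbC)
open Pool.Agent.N77.CP (VCen Csd Mx TF)
open scoped commutatorElement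

variable {C : ∀ (G : Type) [Group G], Prop}

/-- virtual centralizers in a subgroup -/
theorem vcen_map {G : Type} [Group G] {N : Subgroup G} (P : Subgroup N) (g : N)
    (h : VCen (P.map N.subtype) (g : G)) : (Subgroup.centralizer {g}).relIndex P ≠ 0 := by
  have h1 : (Subgroup.centralizer {g}).map N.subtype ⊓ P.map N.subtype =
      Subgroup.centralizer {(g : G)} ⊓ P.map N.subtype := by
    ext x
    constructor
    · rintro ⟨⟨y, hy, rfl⟩, hx⟩
      refine ⟨?_, hx⟩
      rw [SetLike.mem_coe, Subgroup.mem_centralizer_singleton_iff] at hy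
      show N.subtype y ∈ Subgroup.centralizer {(g : G)}
      rw [Subgroup.mem_centralizer_singleton_iff]
      have := congrArg (fun z : N => (z : G)) hy
      simpa using this
    · rintro ⟨hx1, ⟨y, hy, rfl⟩⟩
      refine ⟨⟨y, ?_, rfl⟩, ⟨y, hy, rfl⟩⟩
      have hx2 : N.subtype y ∈ Subgroup.centralizer {(g : G)} := hx1
      rw [Subgroup.mem_centralizer_singleton_iff] at hx2
      rw [SetLike.mem_coe, Subgroup.mem_centralizer_singleton_iff]
      apply Subtype.ext
      simpa using hx2
  have h2 : ((Subgroup.centralizer {g}).map N.subtype).relIndex (P.map N.subtype) =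
      (Subgroup.centralizer {g}).relIndex P :=
    Subgroup.relIndex_map_map_of_injective _ _ N.subtype_injective
  rw [← h2, ← Subgroup.inf_relIndex_right, h1, Subgroup.inf_relIndex_right]
  exact h

/-- the image in the group of the commutator subgroup of a kernel -/
theorem kernels (hC : ClosedE C) (hM : ∀ (G : Type) [Group G], derivedSeries G 2 = ⊥ → C G)
    (hF : FbC C) {G : Type} [Group G] (N : Subgroup G) [hNn : N.Normal] (hQ : C (G ⧸ N))
    {V : Type} [MulAction N V] (T : SimpleGraph V) (hT : T.IsTree)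
    (hact : ∀ (g : N) (x y : V), T.Adj x y → T.Adj (g • x) (g • y))
    (hfin : ∀ x y : V, T.Adj x y →
      (MulAction.stabilizer N x).relIndex (MulAction.stabilizer N y) ≠ 0)
    (hfn : ∀ (x : V) (F : Subgroup (MulAction.stabilizer N x)), F.Normal → Finite F → F = ⊥)
    (o : V) (Q : Type) [Group Q] (ρ : G →* Q) (hCQ : C Q)
    (hρ : ∀ g : N, ρ g = 1 →
      (Subgroup.centralizer {g}).relIndex (MulAction.stabilizer N o) ≠ 0) : C G := by
  classical
  have hcom : ∀ u v : V, (MulAction.stabilizer N u).relIndex (MulAction.stabilizer N v) ≠ 0 :=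
    fun u v => Pool.Agent.N24.CM.commensurable hT.1 (fun x => MulAction.stabilizer N x) hfin u v
  -- the kernel
  obtain ⟨K, hK⟩ : ∃ K : Subgroup N, K = (ρ.comp N.subtype).ker := ⟨_, rfl⟩
  have hKm : ∀ x : N, x ∈ K ↔ ρ x = 1 := by
    intro x
    rw [hK]
    exact MonoidHom.mem_ker
  -- torsion and commutation in the vertex stabilizers of the kernel
  have htor : ∀ (v : V) (z : N), z • v = v → z ∈ K → ∀ n : ℕ, 0 < n → z ^ n = 1 → z = 1 := by
    intro v z hzv hz n hn hzn
    have h4 : (Subgroup.centralizer {z}).relIndex (MulAction.stabilizer N v) ≠ 0 :=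
      Subgroup.relIndex_ne_zero_trans (hρ z ((hKm z).1 hz)) (hcom o v)
    let z' : ↥(MulAction.stabilizer N v) := ⟨z, hzv⟩
    have h5 : (Subgroup.centralizer {z'}).FiniteIndex := by
      refine ⟨?_⟩
      have h6 : (Subgroup.centralizer {z}).subgroupOf (MulAction.stabilizer N v) =
          Subgroup.centralizer {z'} := by
        ext w
        rw [Subgroup.mem_subgroupOf, Subgroup.mem_centralizer_singleton_iff,
          Subgroup.mem_centralizer_singleton_iff]
        exact (Subtype.ext_iff (a1 := w * z') (a2 := z' * w)).symm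
      rw [← h6]
      exact h4
    have h7 := Pool.Agent.N77.CP.DIE.main ↥(MulAction.stabilizer N v) z' n hn
      (Subtype.ext (by
        have : ((z' ^ n : ↥(MulAction.stabilizer N v)) : N) = z ^ n := rfl
        rw [this, hzn]
        rfl)) h5
    have h8 := hfn v _ Subgroup.normalClosure_normal h7
    have h9 : z' ∈ Subgroup.normalClosure ({z'} : Set ↥(MulAction.stabilizer N v)) :=
      Subgroup.subset_normalClosure rfl
    rw [h8, Subgroup.mem_bot] at h9
    exact congrArg (fun w : ↥(MulAction.stabilizer N v) => (w : N)) h9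
  have hab : ∀ (v : V) (x y : N), x ∈ K → y ∈ K → x • v = v → y • v = v → x * y = y * x := by
    intro v x y hxK hyK hxv hyv
    let L : Subgroup N := MulAction.stabilizer N v ⊓ K
    have h1 := Pool.Agent.N77.CP.FC.main L ?_ ?_ ⟨x, hxv, hxK⟩ ⟨y, hyv, hyK⟩
    · exact congrArg (fun z : L => (z : N)) h1
    · intro z n hn hz
      have h2 : (z : N) ^ n = 1 := congrArg (fun z : L => (z : N)) hz
      exact Subtype.ext (htor v z z.2.1 z.2.2 n hn h2)
    · intro z
      have h4 : (Subgroup.centralizer {(z : N)}).relIndex (MulAction.stabilizer N v) ≠ 0 :=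
        Subgroup.relIndex_ne_zero_trans (hρ z ((hKm _).1 z.2.2)) (hcom o v)
      have h5 : (Subgroup.centralizer {(z : N)}).relIndex L ≠ 0 := by
        refine Subgroup.relIndex_ne_zero_trans h4 ?_
        rw [Subgroup.relIndex_eq_one.2 (show L ≤ _ from inf_le_left)]
        exact one_ne_zero
      refine ⟨?_⟩
      have h6 : (Subgroup.centralizer {(z : N)}).subgroupOf L = Subgroup.centralizer {z} := by
        ext w
        rw [Subgroup.mem_subgroupOf, Subgroup.mem_centralizer_singleton_iff,
          Subgroup.mem_centralizer_singleton_iff]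
        exact (Subtype.ext_iff (a1 := w * z) (a2 := z * w)).symm
      rw [← h6]
      exact h5
  -- the commutator subgroup of the kernel is free
  have hfree : IsFreeGroup (commutator K) := by
    refine commutator_free (K := K) (V := V) T hT (fun g u v h => hact g u v h) o ?_ ?_ ?_ ?_
    · intro v a b ha hb
      exact Subtype.ext (hab v a b a.2 b.2 ha hb)
    · intro v a ha
      obtain ⟨n, hn, _, hmem⟩ := Subgroup.exists_pow_mem_of_relIndex_ne_zero (hcom o v)
        (show (a : N) ∈ MulAction.stabilizer N v from ha)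
      exact ⟨n, hn, hmem.1⟩
    · intro g a ha
      obtain ⟨n, hn, _, hmem⟩ := Subgroup.exists_pow_mem_of_relIndex_ne_zero
        (hρ g ((hKm _).1 g.2)) (show (a : N) ∈ MulAction.stabilizer N o from ha)
      refine ⟨n, hn, Subtype.ext ?_⟩
      have h1 := (Subgroup.mem_centralizer_singleton_iff).1 hmem.1
      have h2 : ((g * a ^ n : K) : N) = g * (a : N) ^ n := rfl
      have h3 : ((a ^ n * g : K) : N) = (a : N) ^ n * g := rfl
      rw [h2, h3]
      first
        | exact h1
        | exact h1.symm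
    · intro v a ha hne m hm ham
      exact hne (Subtype.ext (htor v a ha a.2 m hm (congrArg Subtype.val ham)))
  -- its image in the whole group
  obtain ⟨K0, hK0⟩ : ∃ K0 : Subgroup G, K0 = N ⊓ ρ.ker := ⟨_, rfl⟩
  have hK0m : K.map N.subtype = K0 := by
    rw [hK0]
    ext x
    constructor
    · rintro ⟨y, hy, rfl⟩
      exact ⟨y.2, MonoidHom.mem_ker.2 ((hKm y).1 hy)⟩
    · rintro ⟨hx, hx2⟩
      exact ⟨⟨x, hx⟩, (hKm _).2 (MonoidHom.mem_ker.1 hx2), rfl⟩
  have hK0n : K0.Normal := by
    rw [hK0]
    infer_instance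
  obtain ⟨D, hD⟩ : ∃ D : Subgroup G, D = ⁅K0, K0⁆ := ⟨_, rfl⟩
  have hDn : D.Normal := by
    rw [hD]
    infer_instance
  have hDmap : ((commutator K).map K.subtype).map N.subtype = D := by
    rw [commutator_def, Subgroup.map_commutator, Subgroup.map_commutator, ← MonoidHom.range_eq_map,
      Subgroup.range_subtype, hK0m, hD]
  have hDfree : IsFreeGroup D := by
    rw [← hDmap]
    have := hfree
    have e1 := (commutator K).equivMapOfInjective K.subtype K.subtype_injective
    have e2 := ((commutator K).map K.subtype).equivMapOfInjective N.subtype N.subtype_injective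
    exact IsFreeGroup.ofMulEquiv (e1.trans e2)
  refine Pool.Agent.R684.FP.free_ext hC hF D ?_
  -- the quotient
  have hle : D ≤ (ρ.prod (QuotientGroup.mk' N)).ker := by
    rw [hD, Subgroup.commutator_le]
    intro a ha b hb
    rw [hK0] at ha hb
    rw [MonoidHom.mem_ker]
    refine Prod.ext ?_ ?_
    · show ρ ⁅a, b⁆ = 1
      rw [map_commutatorElement, MonoidHom.mem_ker.1 ha.2, commutatorElement_one_left]
    · show (QuotientGroup.mk' N) ⁅a, b⁆ = 1
      have h1 : (QuotientGroup.mk' N) a = 1 := (QuotientGroup.eq_one_iff _).2 ha.1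
      rw [map_commutatorElement, h1, commutatorElement_one_left]
  refine Pool.Agent.N77.CP.abExt hC hM (QuotientGroup.lift D (ρ.prod (QuotientGroup.mk' N))
    (fun x hx => hle hx)) (hC.base.prod _ _ hCQ hQ) ?_
  intro x y hx hy
  obtain ⟨a, rfl⟩ := QuotientGroup.mk_surjective x
  obtain ⟨b, rfl⟩ := QuotientGroup.mk_surjective y
  have hx' := Prod.mk_eq_one.1 (show (ρ a, (QuotientGroup.mk' N) a) = 1 from hx)
  have hy' := Prod.mk_eq_one.1 (show (ρ b, (QuotientGroup.mk' N) b) = 1 from hy)
  have ha : a ∈ K0 := by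
    rw [hK0]
    exact ⟨(QuotientGroup.eq_one_iff _).1 hx'.2, MonoidHom.mem_ker.2 hx'.1⟩
  have hb : b ∈ K0 := by
    rw [hK0]
    exact ⟨(QuotientGroup.eq_one_iff _).1 hy'.2, MonoidHom.mem_ker.2 hy'.1⟩
  rw [← QuotientGroup.mk_mul, ← QuotientGroup.mk_mul, QuotientGroup.eq]
  have h1 : (a * b)⁻¹ * (b * a) = ⁅b⁻¹, a⁻¹⁆ := by
    rw [commutatorElement_def]
    group
  rw [h1, hD]
  exact Subgroup.commutator_mem_commutator (inv_mem hb) (inv_mem ha)

/-- **kernels with virtually polycyclic stabilizers** -/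
theorem main (hC : ClosedE C) (hM : ∀ (G : Type) [Group G], derivedSeries G 2 = ⊥ → C G)
    (hF : FbC C) (hL : ∀ m : ℕ, C (Matrix.GeneralLinearGroup (Fin m) ℚ))
    {G : Type} [Group G] (N : Subgroup G) [hNn : N.Normal] (hQ : C (G ⧸ N))
    {V : Type} [MulAction N V] (T : SimpleGraph V) (hT : T.IsTree)
    (hact : ∀ (g : N) (x y : V), T.Adj x y → T.Adj (g • x) (g • y))
    (hfin : ∀ x y : V, T.Adj x y →
      (MulAction.stabilizer N x).relIndex (MulAction.stabilizer N y) ≠ 0)
    (hfn : ∀ (x : V) (F : Subgroup (MulAction.stabilizer N x)), F.Normal → Finite F → F = ⊥)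
    (o : V) (P : Subgroup N) (hPi : P.relIndex (MulAction.stabilizer N o) ≠ 0) (hPs : Group.IsSolvable P)
    (hPm : ∀ H : Subgroup P, H.FG) (hPt : ∀ (x : P) (n : ℕ), 0 < n → x ^ n = 1 → x = 1)
    (hcsd : ∀ g : G, ((P.map N.subtype).map (MulAut.conj g).toMonoidHom).relIndex
      (P.map N.subtype) ≠ 0) : C G := by
  obtain ⟨P', hP'⟩ : ∃ P' : Subgroup G, P' = P.map N.subtype := ⟨_, rfl⟩
  rw [← hP'] at hcsd
  have e : P ≃* P' := (P.equivMapOfInjective N.subtype N.subtype_injective).trans
    (MulEquiv.subgroupCongr hP'.symm)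
  have hs' : Group.IsSolvable P' := Group.isSolvable_of_surjective (f := e.toMonoidHom) e.surjective
  have ht' : TF P' := by
    intro x n hn hx
    have h1 := hPt (e.symm x) n hn (by rw [← map_pow, hx, map_one])
    have h2 := congrArg e h1
    rwa [e.apply_symm_apply, map_one] at h2
  have hm' : Mx P' := by
    intro H
    have h1 := hPm (H.comap e.toMonoidHom)
    rw [← Group.fg_iff_subgroup_fg] at h1 ⊢
    exact Group.fg_of_surjective (f := e.toMonoidHom.subgroupComap H)
      (MonoidHom.subgroupComap_surjective_of_surjective _ _ e.surjective)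
  obtain ⟨n, hn⟩ := Pool.Agent.N77.CP.exists_SL hs'
  obtain ⟨Q, _, ρ, hCQ, hρ⟩ := Pool.Agent.N77.CP.ind hC hM hL
    (Pool.Agent.N77.CP.HBS.main Pool.Agent.N77.CP.HBX.main) Pool.Agent.N77.CP.MIN.main
    (Pool.Agent.N77.CP.REP.main Pool.Agent.N77.CP.EXT.main) Pool.Agent.N77.CP.ISO.main
    (Pool.Agent.N77.CP.STEP.main Pool.Agent.N77.CP.FC.main) n G P' hcsd ht' hm' hs' hn
  refine kernels hC hM hF N hQ T hT hact hfin hfn o Q ρ hCQ fun g hg => ?_
  have h1 := hρ g hg
  rw [hP'] at h1
  exact Subgroup.relIndex_ne_zero_trans (vcen_map P g h1) hPi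

end Pool.Agent.Run7.h1.GB
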