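import Pool.Agent.N24.TR.Tree

/-!
# Extension of homomorphisms from vertex stabilizers, and free actions on trees

Owner helper1.
-/

set_option autoImplicit false

namespace Pool.Agent.Run7.h1.GB

open SimpleGraph Pool.Agent.N24.TR

/-- a function which is a homomorphism to `ℚ` on all vertex stabilizers and invariant under
conjugation extends to a homomorphism -/
theorem extend_hom {H V : Type} [Group H] [MulAction H V] (T : SimpleGraph V) (hT : T.IsTree)
    (hact : ∀ (g : H) (u v : V), T.Adj u v → T.Adj (g • u) (g • v)) (φ : H → ℚ)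
    (hadd : ∀ (v : V) (a b : H), a • v = v → b • v = v → φ (a * b) = φ a + φ b)
    (hconj : ∀ (v : V) (g a : H), a • v = v → φ (g * a * g⁻¹) = φ a) :
    ∃ Φ : H →* Multiplicative ℚ, ∀ (v : V) (a : H), a • v = v → Φ a = Multiplicative.ofAdd (φ a) := by
  classical
  -- representatives of the orbits
  have hrep : ∀ (X : Type) [MulAction H X], ∃ (r : X → X) (t : X → H), (∀ x, t x • r x = x) ∧
      ∀ (g : H) (x : X), r (g • x) = r x := by
    intro X _
    let r : X → X := fun x => (Quotient.mk (MulAction.orbitRel H X) x).out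
    have h1 : ∀ x, ∃ t : H, t • r x = x := by
      intro x
      have h2 : (Quotient.mk (MulAction.orbitRel H X) (r x)) =
        Quotient.mk (MulAction.orbitRel H X) x := Quotient.out_eq _
      obtain ⟨t, ht⟩ := Quotient.exact h2
      exact ⟨t⁻¹, by rw [inv_smul_eq_iff]; exact ht.symm⟩
    choose t ht using h1
    refine ⟨r, t, ht, fun g x => ?_⟩
    show (Quotient.mk (MulAction.orbitRel H X) (g • x)).out =
      (Quotient.mk (MulAction.orbitRel H X) x).out
    have h3 : (Quotient.mk (MulAction.orbitRel H X) (g • x)) =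
      Quotient.mk (MulAction.orbitRel H X) x := Quotient.sound ⟨g, rfl⟩
    rw [h3]
  obtain ⟨r, t, ht, hr⟩ := hrep V
  obtain ⟨rp, τ, hτ, hrp⟩ := hrep (V × V)
  let s : H → V → ℚ := fun g v => φ ((t (g • v))⁻¹ * g * t v)
  have hfix : ∀ (g : H) (v : V), ((t (g • v))⁻¹ * g * t v) • r v = r v := by
    intro g v
    rw [mul_smul, mul_smul, ht, inv_smul_eq_iff, ← hr g v, ht]
  have hsm : ∀ (g h : H) (v : V), s (g * h) v = s g (h • v) + s h v := by
    intro g h v
    have h1 : (t ((g * h) • v))⁻¹ * (g * h) * t v =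
        ((t (g • h • v))⁻¹ * g * t (h • v)) * ((t (h • v))⁻¹ * h * t v) := by
      rw [mul_smul]
      group
    show φ ((t ((g * h) • v))⁻¹ * (g * h) * t v) = _
    rw [h1]
    refine hadd (r v) _ _ ?_ (hfix h v)
    have h2 := hfix g (h • v)
    rwa [hr] at h2
  have hsf : ∀ (a : H) (v : V), a • v = v → s a v = φ a := by
    intro a v ha
    show φ ((t (a • v))⁻¹ * a * t v) = φ a
    rw [ha]
    have h1 := hconj v (t v)⁻¹ a ha
    rwa [inv_inv] at h1
  let b : V × V → ℚ := fun p => s (τ p) (rp p).2 - s (τ p) (rp p).1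
  have hb : ∀ (h : H) (p : V × V), b (h • p) = b p + (s h p.2 - s h p.1) := by
    intro h p
    obtain ⟨k, hk⟩ : ∃ k : H, k = (τ p)⁻¹ * h⁻¹ * τ (h • p) := ⟨_, rfl⟩
    have h1 : τ (h • p) = h * (τ p * k) := by
      rw [hk]
      group
    have h2 : k • rp p = rp p := by
      rw [hk, mul_smul, mul_smul, ← hrp h p, hτ, inv_smul_smul, hrp, inv_smul_eq_iff, hτ]
    have h3 : k • (rp p).1 = (rp p).1 := congrArg Prod.fst h2
    have h4 : k • (rp p).2 = (rp p).2 := congrArg Prod.snd h2
    have h5 : τ p • (rp p).1 = p.1 := congrArg Prod.fst (hτ p)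
    have h6 : τ p • (rp p).2 = p.2 := congrArg Prod.snd (hτ p)
    show s (τ (h • p)) (rp (h • p)).2 - s (τ (h • p)) (rp (h • p)).1 = _
    rw [hrp, h1, hsm, hsm (τ p), hsm, hsm (τ p), mul_smul, mul_smul, h3, h4, h5, h6, hsf k _ h3,
      hsf k _ h4]
    show _ = s (τ p) (rp p).2 - s (τ p) (rp p).1 + (s h p.2 - s h p.1)
    ring
  let b' : V → V → ℚ := fun u w => (b (u, w) - b (w, u)) / 2
  have hb' : ∀ (h : H) (u w : V), b' (h • u) (h • w) = b' u w + (s h w - s h u) := by
    intro h u w
    show (b (h • (u, w)) - b (h • (w, u))) / 2 = (b (u, w) - b (w, u)) / 2 + (s h w - s h u)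
    rw [hb, hb]
    ring
  obtain ⟨o⟩ := hT.connected.nonempty
  let e : V → V → Multiplicative ℚ := fun u w => Multiplicative.ofAdd (b' u w)
  have he : ∀ u v, T.Adj u v → e u v * e v u = 1 := by
    intro u v _
    show Multiplicative.ofAdd (b' u v) * Multiplicative.ofAdd (b' v u) = 1
    rw [← ofAdd_add]
    have h1 : b' u v + b' v u = 0 := by
      show (b (u, v) - b (v, u)) / 2 + (b (v, u) - b (u, v)) / 2 = 0
      ring
    rw [h1, ofAdd_zero]
  let f : V → ℚ := fun v => Multiplicative.toAdd (gam hT e o v)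
  have hf : ∀ u v, T.Adj u v → f v = f u + b' u v := by
    intro u v h
    show Multiplicative.toAdd (gam hT e o v) = Multiplicative.toAdd (gam hT e o u) + b' u v
    rw [← gam_mul hT e he o u v, gam_adj hT e he h, toAdd_mul]
    rfl
  let F : H → V → ℚ := fun h v => s h v - (f (h • v) - f v)
  have hF : ∀ (h : H) (u v : V), F h u = F h v := by
    intro h u v
    obtain ⟨p⟩ := hT.connected.preconnected u v
    induction p with
    | nil => rfl
    | @cons u v w huv _ ih =>
      rw [← ih]
      show s h u - (f (h • u) - f u) = s h v - (f (h • v) - f v)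
      rw [hf u v huv, hf _ _ (hact h u v huv), hb']
      ring
  refine ⟨{ toFun := fun h => Multiplicative.ofAdd (F h o)
            map_one' := ?_
            map_mul' := fun g h => ?_ }, fun v a ha => ?_⟩
  · have h1 : F 1 o = 0 := by
      have h2 : s (1 * 1) o = s 1 ((1 : H) • o) + s 1 o := hsm 1 1 o
      rw [mul_one, one_smul] at h2
      show s 1 o - (f ((1 : H) • o) - f o) = 0
      rw [one_smul]
      linarith
    rw [h1, ofAdd_zero]
  · rw [← ofAdd_add]
    congr 1
    rw [hF g o (h • o)]
    show s (g * h) o - (f ((g * h) • o) - f o) =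
      s g (h • o) - (f (g • h • o) - f (h • o)) + (s h o - (f (h • o) - f o))
    rw [hsm, mul_smul]
    ring
  · show Multiplicative.ofAdd (F a o) = _
    rw [hF a o v]
    show Multiplicative.ofAdd (s a v - (f (a • v) - f v)) = _
    rw [ha, hsf a v ha]
    congr 1
    ring

/-- the parity of the displacements -/
theorem exists_parity {H V : Type} [Group H] [MulAction H V] (T : SimpleGraph V) (hT : T.IsTree)
    (hact : ∀ (g : H) (u v : V), T.Adj u v → T.Adj (g • u) (g • v)) :
    ∃ τ : H →* Multiplicative (ZMod 2), ∀ (n : H) (u : V), T.Adj u (n • u) → τ n ≠ 1 := by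
  obtain ⟨o⟩ := hT.connected.nonempty
  obtain ⟨par, hpar'⟩ : ∃ par : V → V → Multiplicative (ZMod 2),
      par = fun _ _ => Multiplicative.ofAdd (1 : ZMod 2) := ⟨_, rfl⟩
  have hp : ∀ u v, T.Adj u v → par u v * par v u = 1 := by
    intro u v _
    rw [hpar']
    show Multiplicative.ofAdd (1 : ZMod 2) * Multiplicative.ofAdd (1 : ZMod 2) = 1
    decide
  have hpm : ∀ (g : H) (u v : V), gam hT par (g • u) (g • v) = gam hT par u v := fun g u v =>
    gam_map hT hact par hp g (MonoidHom.id _) (fun _ _ => by rw [hpar']; rfl) u v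
  refine ⟨MonoidHom.mk' (fun g => gam hT par o (g • o)) (by
    intro g h
    rw [mul_smul, ← gam_mul hT par hp o (g • o) (g • h • o), hpm]), ?_⟩
  intro n u h
  show gam hT par o (n • o) ≠ 1
  rw [← gam_mul hT par hp o (n • u) (n • o), ← gam_mul hT par hp o u (n • u), hpm,
    gam_adj hT par hp h, mul_right_comm, gam_mul hT par hp, gam_self hT par hp, one_mul, hpar']
  show Multiplicative.ofAdd (1 : ZMod 2) ≠ 1
  decide

/-- **groups which act freely and without inversions on a tree are free** -/
theorem free_of_action {H V : Type} [Group H] [MulAction H V] (T : SimpleGraph V) (hT : T.IsTree)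
    (hact : ∀ (g : H) (u v : V), T.Adj u v → T.Adj (g • u) (g • v))
    (hfree : ∀ (g : H) (v : V), g • v = v → g = 1) (hinv : ∀ (g : H) (v : V), ¬ T.Adj v (g • v)) :
    IsFreeGroup H := by
  classical
  obtain ⟨o⟩ := hT.connected.nonempty
  let k : V → V → XX (⊤ : Subgroup H) V := kk ⊤
  have hk : ∀ (g : H) (u v : V), k (g • u) (g • v) = k u v := fun g u v =>
    (Quotient.sound ⟨g, Subgroup.mem_top g, rfl⟩ : (Quotient.mk (Rl (⊤ : Subgroup H) V) (u, v)) =
      Quotient.mk (Rl (⊤ : Subgroup H) V) (g • u, g • v)).symm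
  have he : ∀ u v, T.Adj u v → sy k u v * sy k v u = 1 := fun u v _ => sy_mul k u v
  have hmap : ∀ (g : H) (u v : V), gam hT (sy k) (g • u) (g • v) = gam hT (sy k) u v := fun g u v =>
    gam_map hT hact (sy k) he g (MonoidHom.id _) (fun a b => by
      show sy k a b = sy k (g • a) (g • b)
      unfold sy
      rw [hk, hk]) u v
  let Θ : H →* FreeGroup (XX (⊤ : Subgroup H) V) := MonoidHom.mk' (fun g => gam hT (sy k) o (g • o)) (by
    intro g h
    rw [mul_smul, ← gam_mul hT (sy k) he o (g • o) (g • h • o), hmap])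
  have hΘ : Function.Injective Θ := by
    rw [injective_iff_map_eq_one]
    intro g hg
    have hgl : gam hT (sy k) o (g • o) = 1 := hg
    obtain ⟨p⟩ := hT.connected.preconnected o (g • o)
    have h1 : FreeGroup.IsReduced (wd k p.bypass) := by
      refine wd_reduced k ?_ (fun _ => True) ?_ p.bypass p.bypass_isPath (fun x _ => trivial)
      · intro u v h h2
        obtain ⟨n, -, h3, -⟩ := kk_eq (⊤ : Subgroup H) h2
        exact hinv n u (h3 ▸ h)
      · intro v u w _ _ _ h2
        obtain ⟨n, -, h3, h4⟩ := kk_eq (⊤ : Subgroup H) h2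
        rw [hfree n v h3, one_smul] at h4
        exact h4
    rw [gam_eq hT _ he p.bypass, wp_wd] at hgl
    have h2 : wd k p.bypass = [] := by
      have h3 : (FreeGroup.mk (wd k p.bypass)).toWord = wd k p.bypass := by
        rw [FreeGroup.toWord_mk]
        exact h1.reduce_eq
      rw [← h3, hgl]
      rfl
    exact hfree g o (wd_nil k p.bypass h2).symm
  exact IsFreeGroup.ofMulEquiv (MonoidHom.ofInjective hΘ).symm

end Pool.Agent.Run7.h1.GB
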